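import Pool.Agent.LE.StmtsC
import Pool.Agent.Helper54_LE.LYA
import Pool.Agent.Helper42_LE.Msd

/-!
# UPE: upper bound for the Lyapunov exponent
-/

set_option autoImplicit false

open MeasureTheory ProbabilityTheory Function Filter

open scoped ENNReal BigOperators Topology

noncomputable section

namespace Pool.Agent.LE.H65C

open Pool.Agent.Anderson Pool.Agent.Loc Pool.Agent.Mob Pool.Agent.Helper54.Bal

variable {d : ℕ}

theorem sd_sm_le {Q k : ℕ} {y : Site d} (hy : sd 0 y = Q) : sd 0 (sm k y) ≤ k * Q := by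
  rw [sd_le_iff]
  intro i
  have h1 := (sd_le_iff (n := Q)).1 hy.le i
  rw [Pi.zero_apply, zero_sub, abs_neg] at h1 ⊢
  unfold sm
  rw [abs_mul, Nat.abs_cast]
  push_cast
  exact mul_le_mul_of_nonneg_left h1 (Int.natCast_nonneg k)

theorem sd_sm_gt {Q k : ℕ} {y : Site d} (hy : sd 0 y = Q) (hQ : 1 ≤ Q) (hk : 1 ≤ k) :
    ¬ sd 0 (sm k y) ≤ k * Q - 1 := by
  intro h
  have h1 : sd 0 y ≤ Q - 1 := by
    rw [sd_le_iff]
    intro i
    have h2 := (sd_le_iff (n := k * Q - 1)).1 h i
    rw [Pi.zero_apply, zero_sub, abs_neg] at h2 ⊢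
    unfold sm at h2
    rw [abs_mul, Nat.abs_cast] at h2
    have hkQ : 1 ≤ k * Q := Nat.mul_pos hk hQ
    rw [Nat.cast_sub hkQ] at h2
    rw [Nat.cast_sub hQ]
    push_cast at h2 ⊢
    by_contra hc
    have h3 : (Q : ℤ) ≤ |y i| := by omega
    have h4 : (k : ℤ) * Q ≤ k * |y i| := mul_le_mul_of_nonneg_left h3 (Int.natCast_nonneg k)
    omega
  omega

/-- the bound on the good event -/
theorem upper {V : Site d → ℝ} {N r : ℕ} {E a b : ℝ} {u : Site d} (hrN : r ≤ N)
    (hdet : (RM V (box (0 : Site d) N) E).det ≠ 0) (hSG : SG V r a E 0)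
    (huN : u ∈ box (0 : Site d) N) (hur : ¬ sd 0 u ≤ r) (hb : 0 ≤ b)
    (hW : ∀ v ∈ box (0 : Site d) (r + 1), |gr V (box (0 : Site d) N) E v u| ≤ b) :
    |gr V (box (0 : Site d) N) E 0 u| ≤ Real.exp (-a * r) * (2 * d * (2 * r + 1) ^ d) * b := by
  have hA : box (0 : Site d) r ⊆ box 0 N := by
    intro z hz
    rw [mem_box] at hz ⊢
    omega
  have key := H42.geo_bound (α := Real.exp (-a * r)) (β := b) hA hdet hSG.1
    (mem_box.2 (by rw [sd_self]; exact Nat.zero_le _))
    (Finset.mem_sdiff.2 ⟨huN, fun h => hur (mem_box.1 h)⟩) (Real.exp_pos _).le hb (by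
      intro c hc c' hc' hne
      have h8 := sd_of_hop hne
      rw [mem_box] at hc
      rw [Finset.mem_sdiff, mem_box, mem_box] at hc'
      have h9 := sd_triangle (0 : Site d) c c'
      exact ⟨hSG.2 c (by omega), hW c' (mem_box.2 (by omega))⟩)
  refine key.trans (le_of_eq ?_)
  rw [card_box]
  push_cast
  rfl

theorem upe : UpeStmt := by
  intro d σ E g c M₀ Q₁ ℓ y hd hσ hg hQ₁ hℓ hy hup
  obtain ⟨C, hC, hfmn⟩ := H54.fmn d σ E hd hσ
  obtain ⟨hg0, hlya⟩ := hg
  have hν := bddDens_gl hσ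
  have hd' : (1 : ℝ) ≤ d := by exact_mod_cast hd
  obtain ⟨L1, hL1⟩ : ∃ L1 : ℕ, L1 = Q₁ * ℓ := ⟨_, rfl⟩
  have hL1pos : 1 ≤ L1 := by rw [hL1]; exact Nat.mul_pos hQ₁ hℓ
  -- it suffices to prove `g ≤ c + 6 ε`
  have hmain : ∀ ε : ℝ, 0 < ε → g ≤ c + 6 * ε := by
    intro ε hε
    obtain ⟨A, hA⟩ : ∃ A : ℝ, A = |g - 4 * ε| := ⟨_, rfl⟩
    have hA0 : 0 ≤ A := by rw [hA]; exact abs_nonneg _
    obtain ⟨p, hp⟩ : ∃ p : ℝ, p = ε / (A + 1) := ⟨_, rfl⟩
    have hp0 : 0 < p := by rw [hp]; positivity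
    have hpA : A * p ≤ ε := by
      rw [hp, mul_div_assoc', div_le_iff₀ (by positivity)]
      nlinarith
    -- the three tails
    have hM : Tendsto (fun m : ℕ => m * L1) atTop atTop :=
      tendsto_id.atTop_mul_const' (by omega)
    have hr : Tendsto (fun m : ℕ => m * L1 - 1) atTop atTop :=
      (tendsto_sub_atTop_nat 1).comp hM
    have e1 : ∀ᶠ m : ℕ in atTop, PP d (gl σ) {V | ¬ SG V (m * L1 - 1) (g - ε) E 0} <
        ENNReal.ofReal (p / 2) :=
      ((hlya ε hε).2.comp hr).eventually_lt_const (ENNReal.ofReal_pos.2 (by positivity))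
    have e2 : ∀ᶠ m : ℕ in atTop, (2 * ((m * L1 : ℕ) : ℝ) + 1) ^ d *
        (6 * (1 / |σ|) * Real.exp (-ε * ((m * L1 : ℕ) : ℝ))) < p / 2 :=
      ((H54.tendsto_pow_exp d (by linarith : -ε < 0) (6 * (1 / |σ|))).comp hM).eventually_lt_const
        (by positivity)
    have e3 : ∀ᶠ m : ℕ in atTop, (2 * ((m * L1 : ℕ) : ℝ) + 1) ^ d *
        (2 * d * Real.exp (-ε * ((m * L1 : ℕ) : ℝ))) < 1 :=
      ((H54.tendsto_pow_exp d (by linarith : -ε < 0) (2 * d)).comp hM).eventually_lt_const
        one_pos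
    have hMr : Tendsto (fun m : ℕ => ((m * L1 : ℕ) : ℝ)) atTop atTop :=
      tendsto_natCast_atTop_atTop.comp hM
    have e4 : ∀ᶠ m : ℕ in atTop, (|g - ε| + (1 + C) + 1) / ε ≤ ((m * L1 : ℕ) : ℝ) :=
      hMr.eventually_ge_atTop _
    obtain ⟨m, h1, h2, h3, h4, hm⟩ :=
      (e1.and (e2.and (e3.and (e4.and (eventually_ge_atTop 1))))).exists
    obtain ⟨M, hMd⟩ : ∃ M : ℕ, M = m * L1 := ⟨_, rfl⟩
    rw [← hMd] at h1 h2 h3 h4
    have hM1 : 1 ≤ M := by rw [hMd]; exact Nat.mul_pos hm hL1pos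
    obtain ⟨N, hN⟩ : ∃ N : ℕ, N = (m + M₀) * (Q₁ * ℓ) := ⟨_, rfl⟩
    have hMN : M ≤ N := by
      rw [hN, hMd, hL1]
      exact Nat.mul_le_mul_right _ (Nat.le_add_right _ _)
    obtain ⟨u, hu⟩ : ∃ u : Site d, u = sm (m * ℓ) y := ⟨_, rfl⟩
    have hmlQ : m * ℓ * Q₁ = M := by rw [hMd, hL1]; ring
    have hu1 : sd 0 u ≤ M := by rw [hu, ← hmlQ]; exact sd_sm_le hy
    have hu2 : ¬ sd 0 u ≤ M - 1 := by
      rw [hu, ← hmlQ]
      exact sd_sm_gt hy hQ₁ (Nat.mul_pos hm hℓ)
    have huN : u ∈ box (0 : Site d) N := mem_box.2 (by omega)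
    have h0N : (0 : Site d) ∈ box (0 : Site d) N := mem_box.2 (by rw [sd_self]; omega)
    obtain ⟨hF, hne⟩ := hfmn N
    have hup' := hup m N hm (by rw [hN])
    rw [← hu] at hup'
    -- the bad event
    obtain ⟨T, hT⟩ : ∃ T : ℝ, T = Real.exp (ε * M) := ⟨_, rfl⟩
    have hT0 : 0 < T := by rw [hT]; exact Real.exp_pos _
    obtain ⟨S, hS⟩ : ∃ S : Set (Site d → ℝ), S = {V | ¬ SG V (M - 1) (g - ε) E 0} ∪
        ({V | (RM V (box (0 : Site d) N) E).det = 0} ∪
          (({V | gr V (box (0 : Site d) N) E 0 u = 0}) ∪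
          ⋃ v ∈ box (0 : Site d) M, {V | T < |gr V (box (0 : Site d) N) E v u|})) := ⟨_, rfl⟩
    have hSp : PP d (gl σ) S ≤ ENNReal.ofReal p := by
      rw [hS]
      refine (measure_union_le _ _).trans ?_
      have h5 : PP d (gl σ) (⋃ v ∈ box (0 : Site d) M,
          {V | T < |gr V (box (0 : Site d) N) E v u|}) ≤ ENNReal.ofReal (p / 2) := by
        calc PP d (gl σ) (⋃ v ∈ box (0 : Site d) M,
              {V | T < |gr V (box (0 : Site d) N) E v u|})
            ≤ ∑ v ∈ box (0 : Site d) M, PP d (gl σ)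
                {V | T < |gr V (box (0 : Site d) N) E v u|} := measure_biUnion_finset_le _ _
          _ ≤ ∑ v ∈ box (0 : Site d) M, ENNReal.ofReal (6 * (1 / |σ|) / T) :=
              Finset.sum_le_sum fun v _ => H54.PP_weak hν _ E v u hT0
          _ = ENNReal.ofReal ((2 * (M : ℝ) + 1) ^ d *
                (6 * (1 / |σ|) * Real.exp (-ε * M))) := by
              rw [Finset.sum_const, card_box, nsmul_eq_mul]
              have h6 : 6 * (1 / |σ|) / T = 6 * (1 / |σ|) * Real.exp (-ε * M) := by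
                rw [hT, neg_mul, Real.exp_neg]
                field_simp
              rw [h6, ENNReal.ofReal_mul (p := (2 * (M : ℝ) + 1) ^ d) (by positivity)]
              congr 1
              rw [← ENNReal.ofReal_natCast]
              push_cast
              rfl
          _ ≤ _ := ENNReal.ofReal_le_ofReal h2.le
      calc PP d (gl σ) {V | ¬ SG V (M - 1) (g - ε) E 0} +
            PP d (gl σ) ({V | (RM V (box (0 : Site d) N) E).det = 0} ∪
              (({V | gr V (box (0 : Site d) N) E 0 u = 0}) ∪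
              ⋃ v ∈ box (0 : Site d) M, {V | T < |gr V (box (0 : Site d) N) E v u|}))
          ≤ ENNReal.ofReal (p / 2) + (0 + (0 + ENNReal.ofReal (p / 2))) := by
            refine add_le_add h1.le ((measure_union_le _ _).trans (add_le_add ?_ ?_))
            · exact (H54.PP_det hν _ E).le
            · exact (measure_union_le _ _).trans (add_le_add (hne 0 h0N u huN).le h5)
        _ = ENNReal.ofReal p := by
            rw [zero_add, zero_add, ← ENNReal.ofReal_add (by positivity) (by positivity)]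
            congr 1
            ring
    obtain ⟨S', hS'1, hS'2, hS'3⟩ := exists_measurable_superset (PP d (gl σ)) S
    have hq : ((PP d (gl σ)) S').toReal ≤ p := by
      rw [hS'3]
      exact ENNReal.toReal_le_of_le_ofReal hp0.le hSp
    -- pointwise lower bound
    have hB : ∀ V ∉ S', (g - 4 * ε) * M ≤ DL (box (0 : Site d) N) E V 0 u := by
      intro V hV
      have hVS : V ∉ S := fun h => hV (hS'1 h)
      rw [hS] at hVS
      simp only [Set.mem_union, Set.mem_iUnion, not_or, not_exists, Set.mem_ofPred_eq,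
        not_not] at hVS
      obtain ⟨g1, g2, g3, g4⟩ := hVS
      have key := upper (a := g - ε) (b := T) (r := M - 1) (N := N) (u := u) (by omega) g2 g1 huN
        hu2 hT0.le (fun v hv => not_lt.1 (g4 v (by rwa [Nat.sub_add_cancel hM1] at hv)))
      have hMc : ((M - 1 : ℕ) : ℝ) = (M : ℝ) - 1 := by rw [Nat.cast_sub hM1, Nat.cast_one]
      have h5 : (2 * (d : ℝ) * (2 * ((M - 1 : ℕ) : ℝ) + 1) ^ d) ≤ Real.exp (ε * M) := by
        have h6 : (2 * ((M - 1 : ℕ) : ℝ) + 1) ^ d ≤ (2 * (M : ℝ) + 1) ^ d := by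
          apply pow_le_pow_left₀ (by positivity)
          rw [hMc]
          linarith
        have h7 : (2 * (M : ℝ) + 1) ^ d * (2 * d * Real.exp (-ε * M)) * Real.exp (ε * M) ≤
            1 * Real.exp (ε * M) := mul_le_mul_of_nonneg_right h3.le (Real.exp_pos _).le
        have h8 : Real.exp (-ε * M) * Real.exp (ε * M) = 1 := by
          rw [← Real.exp_add]
          have : -ε * (M : ℝ) + ε * M = 0 := by ring
          rw [this, Real.exp_zero]
        calc (2 * (d : ℝ) * (2 * ((M - 1 : ℕ) : ℝ) + 1) ^ d) ≤ 2 * d * (2 * (M : ℝ) + 1) ^ d := by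
              gcongr
          _ = (2 * (M : ℝ) + 1) ^ d * (2 * d * (Real.exp (-ε * M) * Real.exp (ε * M))) := by
              rw [h8]; ring
          _ = (2 * (M : ℝ) + 1) ^ d * (2 * d * Real.exp (-ε * M)) * Real.exp (ε * M) := by ring
          _ ≤ _ := by rw [one_mul] at h7; exact h7
      have h6 : |gr V (box (0 : Site d) N) E 0 u| ≤
          Real.exp (-(g - ε) * ((M - 1 : ℕ) : ℝ) + ε * M + ε * M) := by
        rw [Real.exp_add, Real.exp_add]
        refine key.trans ?_
        rw [← hT] at h5 ⊢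
        exact mul_le_mul_of_nonneg_right (mul_le_mul_of_nonneg_left h5 (Real.exp_pos _).le) hT0.le
      have h7 := Real.log_le_log (abs_pos.2 g3) h6
      rw [Real.log_exp, hMc] at h7
      unfold DL
      have h8 : (|g - ε| + (1 + C) + 1) ≤ ε * M := by
        rw [div_le_iff₀ hε] at h4
        linarith
      have h9 := le_abs_self (g - ε)
      nlinarith
    -- integration
    have hDm := hF.meas 0 u
    have hDint : Integrable (fun V => DL (box (0 : Site d) N) E V 0 u) (PP d (gl σ)) := by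
      refine Integrable.mono' ((integrable_const (1 : ℝ)).add (hF.int 0 h0N u huN))
        hDm.aestronglyMeasurable (Eventually.of_forall fun V => ?_)
      show ‖DL (box (0 : Site d) N) E V 0 u‖ ≤ 1 + DL (box (0 : Site d) N) E V 0 u ^ 2
      rw [Real.norm_eq_abs]
      nlinarith [sq_nonneg (|DL (box (0 : Site d) N) E V 0 u| - 1),
        sq_abs (DL (box (0 : Site d) N) E V 0 u), abs_nonneg (DL (box (0 : Site d) N) E V 0 u)]
    have hnm : Measurable fun V => max 0 (-DL (box (0 : Site d) N) E V 0 u) :=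
      measurable_const.max hDm.neg
    have hnle : ∀ V, max 0 (-DL (box (0 : Site d) N) E V 0 u) ≤
        |DL (box (0 : Site d) N) E V 0 u| := fun V => max_le (abs_nonneg _) (neg_le_abs _)
    have hnint : Integrable (fun V => max 0 (-DL (box (0 : Site d) N) E V 0 u))
        (PP d (gl σ)) := by
      refine Integrable.mono' hDint.abs hnm.aestronglyMeasurable
        (Eventually.of_forall fun V => ?_)
      rw [Real.norm_of_nonneg (le_max_left _ _)]
      exact hnle V
    have hnsq : Integrable (fun V => (max 0 (-DL (box (0 : Site d) N) E V 0 u)) ^ 2)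
        (PP d (gl σ)) := by
      refine Integrable.mono' (hF.int 0 h0N u huN) (hnm.pow_const 2).aestronglyMeasurable
        (Eventually.of_forall fun V => ?_)
      rw [Real.norm_of_nonneg (sq_nonneg _), ← sq_abs (DL (box (0 : Site d) N) E V 0 u)]
      exact pow_le_pow_left₀ (le_max_left _ _) (hnle V) 2
    have hneg : ∫ V, max 0 (-DL (box (0 : Site d) N) E V 0 u) ∂(PP d (gl σ)) ≤ 1 + C := by
      have h5 : ∫ V, max 0 (-DL (box (0 : Site d) N) E V 0 u) ∂(PP d (gl σ)) ≤
          ∫ V, (1 + (max 0 (-DL (box (0 : Site d) N) E V 0 u)) ^ 2) ∂(PP d (gl σ)) := by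
        refine integral_mono hnint ((integrable_const 1).add hnsq) fun V => ?_
        show max 0 (-DL (box (0 : Site d) N) E V 0 u) ≤
          1 + (max 0 (-DL (box (0 : Site d) N) E V 0 u)) ^ 2
        nlinarith [sq_nonneg (max 0 (-DL (box (0 : Site d) N) E V 0 u) - 1),
          le_max_left 0 (-DL (box (0 : Site d) N) E V 0 u)]
      rw [integral_add (integrable_const 1) hnsq] at h5
      have h6 := hF.neg 0 h0N u huN
      have h7 : ∫ _ : Site d → ℝ, (1 : ℝ) ∂(PP d (gl σ)) = 1 := by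
        rw [integral_const]
        simp
      rw [h7] at h5
      linarith
    have hlow : (g - 4 * ε) * M * (1 - ((PP d (gl σ)) S').toReal) - (1 + C) ≤
        ∫ V, DL (box (0 : Site d) N) E V 0 u ∂(PP d (gl σ)) := by
      have h5 : ∫ V, (S'ᶜ.indicator (fun _ => (g - 4 * ε) * M) V -
          max 0 (-DL (box (0 : Site d) N) E V 0 u)) ∂(PP d (gl σ)) ≤
          ∫ V, DL (box (0 : Site d) N) E V 0 u ∂(PP d (gl σ)) := by
        refine integral_mono (((integrable_const _).indicator hS'2.compl).sub hnint) hDint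
          fun V => ?_
        show S'ᶜ.indicator (fun _ => (g - 4 * ε) * (M : ℝ)) V -
          max 0 (-DL (box (0 : Site d) N) E V 0 u) ≤ DL (box (0 : Site d) N) E V 0 u
        by_cases hV : V ∈ S'
        · rw [Set.indicator_of_notMem (Set.notMem_compl_iff.2 hV)]
          have := le_max_right 0 (-DL (box (0 : Site d) N) E V 0 u)
          linarith
        · rw [Set.indicator_of_mem (Set.mem_compl hV)]
          have := le_max_left 0 (-DL (box (0 : Site d) N) E V 0 u)
          have := hB V hV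
          linarith
      rw [integral_sub ((integrable_const _).indicator hS'2.compl) hnint,
        integral_indicator_const _ hS'2.compl, smul_eq_mul, probReal_compl_eq_one_sub hS'2] at h5
      have h6 : (PP d (gl σ)).real S' = ((PP d (gl σ)) S').toReal := rfl
      rw [h6] at h5
      linarith
    -- conclusion
    obtain ⟨q, hqd⟩ : ∃ q : ℝ, q = ((PP d (gl σ)) S').toReal := ⟨_, rfl⟩
    rw [← hqd] at hq hlow
    have hq0 : 0 ≤ q := by rw [hqd]; exact ENNReal.toReal_nonneg
    have hcM : (m : ℝ) * (c * (Q₁ * ℓ)) = c * M := by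
      rw [hMd, hL1]
      push_cast
      ring
    rw [hcM] at hup'
    have hM0 : (0 : ℝ) < M := by exact_mod_cast hM1
    have h8 : (|g - ε| + (1 + C) + 1) ≤ ε * M := by
      rw [div_le_iff₀ hε] at h4
      linarith
    have h9 := abs_nonneg (g - ε)
    have h10 : -ε ≤ -(g - 4 * ε) * q := by
      have h11 : (g - 4 * ε) * q ≤ A * p := by
        calc (g - 4 * ε) * q ≤ A * q := mul_le_mul_of_nonneg_right (hA ▸ le_abs_self _) hq0
          _ ≤ A * p := mul_le_mul_of_nonneg_left hq hA0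
      linarith
    have h12 : (g - 5 * ε) * M ≤ (g - 4 * ε) * M * (1 - q) := by
      have h13 : (g - 4 * ε) * M * (1 - q) - (g - 5 * ε) * M =
          M * (ε + -(g - 4 * ε) * q) := by ring
      have h14 : 0 ≤ M * (ε + -(g - 4 * ε) * q) := mul_nonneg hM0.le (by linarith)
      linarith
    have h15 : (g - 6 * ε) * M ≤ c * M := by
      have : (g - 6 * ε) * M = (g - 5 * ε) * M - ε * M := by ring
      linarith
    have := le_of_mul_le_mul_right h15 hM0
    linarith
  by_contra hc
  rw [not_le] at hc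
  have := hmain ((g - c) / 12) (by linarith)
  linarith

end Pool.Agent.LE.H65C
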